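import Mathlib

open Classical

namespace HJI.Fol

/-- Folner condition for a discrete group (left translations). -/
def Fol (G : Type) [Group G] : Prop :=
  ∀ (S : Finset G) (ε : ℝ), 0 < ε → ∃ T : Finset G, T.Nonempty ∧
    ∀ s ∈ S, (((T.filter (fun t => s * t ∉ T)).card : ℕ) : ℝ) ≤ ε * (T.card : ℝ)

theorem fol_of_finite {G : Type} [Group G] [Finite G] : Fol G := by
  intro S ε hε
  haveI := Fintype.ofFinite G
  refine ⟨Finset.univ, ⟨1, Finset.mem_univ 1⟩, fun s _ => ?_⟩
  have h1 : (Finset.univ.filter (fun t : G => s * t ∉ (Finset.univ : Finset G))) = ∅ := by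
    ext t; simp
  rw [h1, Finset.card_empty, Nat.cast_zero]
  positivity

theorem fol_of_injective {G H : Type} [Group G] [Group H] (f : H →* G)
    (hf : Function.Injective f) (h : Fol G) : Fol H := by
  intro S ε hε
  obtain ⟨T, hT, hTS⟩ := h (S.image f) (ε / (S.card + 1)) (by positivity)
  let c : G → Quotient (QuotientGroup.rightRel f.range) := fun g => Quotient.mk _ g
  have hc : ∀ (s : H) (t : G), c (f s * t) = c t := by
    intro s t
    apply Quotient.sound
    show (QuotientGroup.rightRel f.range) (f s * t) t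
    rw [QuotientGroup.rightRel_apply]
    refine ⟨s⁻¹, ?_⟩
    rw [map_inv]
    group
  have hc2 : ∀ t g : G, c t = c g → ∃ x : H, f x * g = t := by
    intro t g hgt
    have h1 : (QuotientGroup.rightRel f.range) t g := Quotient.exact hgt
    rw [QuotientGroup.rightRel_apply] at h1
    obtain ⟨x, hx⟩ := h1
    refine ⟨x⁻¹, ?_⟩
    rw [map_inv, hx]
    group
  -- averaging over the cosets
  have hsum : ∑ q ∈ T.image c, ∑ s ∈ S,
      ((((T.filter (fun t => c t = q)).filter (fun t => f s * t ∉ T)).card : ℕ) : ℝ) ≤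
      ∑ q ∈ T.image c, ε * (((T.filter (fun t => c t = q)).card : ℕ) : ℝ) := by
    have hpart : ∀ U : Finset G, U ⊆ T →
        ∑ q ∈ T.image c, (((U.filter (fun t => c t = q)).card : ℕ) : ℝ) = (U.card : ℝ) := by
      intro U hU
      rw [← Nat.cast_sum, ← Finset.card_eq_sum_card_fiberwise]
      intro t ht
      exact Finset.mem_image_of_mem c (hU ht)
    rw [Finset.sum_comm, ← Finset.mul_sum, hpart T (Finset.Subset.refl T)]
    have h1 : ∀ s ∈ S, ∑ q ∈ T.image c,
        ((((T.filter (fun t => c t = q)).filter (fun t => f s * t ∉ T)).card : ℕ) : ℝ) ≤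
        ε / (S.card + 1) * (T.card : ℝ) := by
      intro s hs
      have h2 : ∀ q, (T.filter (fun t => c t = q)).filter (fun t => f s * t ∉ T) =
          (T.filter (fun t => f s * t ∉ T)).filter (fun t => c t = q) := by
        intro q
        exact Finset.filter_comm _ _ _
      simp only [h2]
      rw [hpart _ (Finset.filter_subset _ _)]
      exact hTS (f s) (Finset.mem_image_of_mem f hs)
    calc _ ≤ ∑ s ∈ S, ε / (S.card + 1) * (T.card : ℝ) := Finset.sum_le_sum h1
      _ = (S.card : ℝ) / (S.card + 1) * (ε * T.card) := by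
          rw [Finset.sum_const, nsmul_eq_mul]; ring
      _ ≤ 1 * (ε * T.card) := by
          gcongr
          rw [div_le_one (by positivity)]
          linarith
      _ = _ := by ring
  obtain ⟨q, hq, hq2⟩ := Finset.exists_le_of_sum_le (hT.image c) hsum
  rw [Finset.mem_image] at hq
  obtain ⟨g, hgT, hgq⟩ := hq
  set Tq := T.filter (fun t => c t = q) with hTq
  have hinj : Function.Injective (fun x : H => f x * g) := fun x y hxy =>
    hf (mul_right_cancel hxy)
  set TH : Finset H := Tq.preimage (fun x : H => f x * g) hinj.injOn with hTH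
  have himg : TH.image (fun x : H => f x * g) = Tq := by
    ext t
    rw [Finset.mem_image]
    constructor
    · rintro ⟨x, hx, rfl⟩
      rw [hTH] at hx
      exact (Finset.mem_preimage (f := fun x : H => f x * g)).1 hx
    · intro ht
      have h1 : c t = c g := by
        rw [hTq, Finset.mem_filter] at ht
        rw [ht.2, hgq]
      obtain ⟨x, hx⟩ := hc2 t g h1
      refine ⟨x, ?_, hx⟩
      rw [hTH, Finset.mem_preimage, hx]
      exact ht
  have hcard : TH.card = Tq.card := by
    rw [← himg, Finset.card_image_of_injective _ hinj]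
  refine ⟨TH, ⟨1, ?_⟩, fun s hs => ?_⟩
  · rw [hTH, Finset.mem_preimage, map_one, one_mul, hTq, Finset.mem_filter]
    exact ⟨hgT, hgq⟩
  · rw [hcard]
    have h1 : ((((TH.filter (fun t => s * t ∉ TH)).card : ℕ) : ℝ)) ≤
        (((Tq.filter (fun t => f s * t ∉ T)).card : ℕ) : ℝ) := by
      rw [← Finset.card_image_of_injective _ hinj]
      refine Nat.cast_le.2 (Finset.card_le_card ?_)
      intro t ht
      rw [Finset.mem_image] at ht
      obtain ⟨x, hx, rfl⟩ := ht
      rw [Finset.mem_filter] at hx
      have hx1 : f x * g ∈ Tq := (Finset.mem_preimage (f := fun x : H => f x * g)).1 hx.1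
      rw [Finset.mem_filter]
      refine ⟨hx1, fun h2 => hx.2 ?_⟩
      rw [hTH, Finset.mem_preimage, map_mul, mul_assoc, hTq, Finset.mem_filter]
      refine ⟨h2, ?_⟩
      rw [hc]
      rw [hTq, Finset.mem_filter] at hx1
      exact hx1.2
    refine h1.trans (le_trans ?_ hq2)
    exact Finset.single_le_sum (f := fun s =>
      (((Tq.filter (fun t => f s * t ∉ T)).card : ℕ) : ℝ)) (fun i _ => Nat.cast_nonneg _) hs

theorem fol_ext {G H : Type} [Group G] [Group H] (f : G →* H) (h1 : Fol f.ker) (h2 : Fol H) :
    Fol G := by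
  have h3 : Fol f.range := fol_of_injective f.range.subtype Subtype.val_injective h2
  intro S ε hε
  obtain ⟨F, hF, hFS⟩ := h3 (S.image f.rangeRestrict) (ε / 2) (by positivity)
  have hsurj : Function.Surjective f.rangeRestrict := f.rangeRestrict_surjective
  choose σ hσ using hsurj
  have hker : ∀ (s : G) (x : f.range), (σ (f.rangeRestrict s * x))⁻¹ * s * σ x ∈ f.ker := by
    intro s x
    have e1 : f (σ (f.rangeRestrict s * x)) = f s * x := by
      have := congrArg Subtype.val (hσ (f.rangeRestrict s * x))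
      simpa using this
    have e2 : f (σ x) = x := congrArg Subtype.val (hσ x)
    rw [MonoidHom.mem_ker, map_mul, map_mul, map_inv, e1, e2]
    group
  let nn : G → f.range → f.ker := fun s x => ⟨_, hker s x⟩
  obtain ⟨N, hN, hNS⟩ := h1 ((S ×ˢ F).image (fun p => nn p.1 p.2)) (ε / 2) (by positivity)
  let m : f.range × f.ker → G := fun p => σ p.1 * p.2
  have hm : Function.Injective m := by
    rintro ⟨x, n⟩ ⟨y, k⟩ hxy
    have hxy' : σ x * (n : G) = σ y * (k : G) := hxy
    have e3 : f.rangeRestrict (σ x * (n : G)) = f.rangeRestrict (σ y * (k : G)) := by rw [hxy']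
    have e4 : ∀ n : f.ker, f.rangeRestrict (n : G) = 1 := by
      intro n
      apply Subtype.ext
      exact n.2
    rw [map_mul, map_mul, e4, e4, hσ, hσ, mul_one, mul_one] at e3
    subst e3
    have e5 := mul_left_cancel hxy'
    rw [Subtype.ext e5]
  refine ⟨(F ×ˢ N).image m, (hF.product hN).image m, fun s hs => ?_⟩
  rw [Finset.card_image_of_injective _ hm, Finset.card_product]
  have hsub : (((F ×ˢ N).image m).filter (fun t => s * t ∉ (F ×ˢ N).image m)) ⊆
      (((F.filter (fun x => f.rangeRestrict s * x ∉ F)) ×ˢ N) ∪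
        (F.sigma (fun x => N.filter (fun n => nn s x * n ∉ N))).image (fun p => (p.1, p.2))).image m := by
    intro t ht
    rw [Finset.mem_filter, Finset.mem_image] at ht
    obtain ⟨⟨⟨x, n⟩, hxn, rfl⟩, ht2⟩ := ht
    rw [Finset.mem_product] at hxn
    refine Finset.mem_image_of_mem m ?_
    rw [Finset.mem_union]
    by_cases hx : f.rangeRestrict s * x ∉ F
    · left
      rw [Finset.mem_product, Finset.mem_filter]
      exact ⟨⟨hxn.1, hx⟩, hxn.2⟩
    · right
      rw [not_not] at hx
      rw [Finset.mem_image]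
      refine ⟨⟨x, n⟩, ?_, rfl⟩
      rw [Finset.mem_sigma, Finset.mem_filter]
      refine ⟨hxn.1, hxn.2, fun h5 => ht2 ?_⟩
      rw [Finset.mem_image]
      refine ⟨(f.rangeRestrict s * x, nn s x * n), Finset.mem_product.2 ⟨hx, h5⟩, ?_⟩
      show σ (f.rangeRestrict s * x) * (((σ (f.rangeRestrict s * x))⁻¹ * s * σ x) * (n : G)) =
        s * (σ x * (n : G))
      group
  have hcard := Finset.card_le_card hsub
  rw [Finset.card_image_of_injective _ hm] at hcard
  have hcard2 := hcard.trans (Finset.card_union_le _ _)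
  have hcard3 : (((F.sigma (fun x => N.filter (fun n => nn s x * n ∉ N))).image
      (fun p => (p.1, p.2))).card : ℝ) ≤ ε / 2 * (F.card * N.card) := by
    refine (Nat.cast_le.2 Finset.card_image_le).trans ?_
    rw [Finset.card_sigma, Nat.cast_sum]
    calc _ ≤ ∑ x ∈ F, ε / 2 * (N.card : ℝ) := by
          refine Finset.sum_le_sum fun x hx => ?_
          convert hNS (nn s x) (Finset.mem_image.2 ⟨(s, x), Finset.mem_product.2 ⟨hs, hx⟩, rfl⟩) <;>
            rfl
      _ = _ := by rw [Finset.sum_const, nsmul_eq_mul]; ring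
  have hcard4 : ((((F.filter (fun x => f.rangeRestrict s * x ∉ F)) ×ˢ N).card : ℕ) : ℝ) ≤
      ε / 2 * (F.card * N.card) := by
    rw [Finset.card_product, Nat.cast_mul]
    have h5 := hFS (f.rangeRestrict s) (Finset.mem_image_of_mem _ hs)
    calc _ ≤ ε / 2 * (F.card : ℝ) * (N.card : ℝ) := by
          refine mul_le_mul_of_nonneg_right ?_ (Nat.cast_nonneg _)
          convert h5 <;> rfl
      _ = _ := by ring
  calc _ ≤ ((((F.filter (fun x => f.rangeRestrict s * x ∉ F)) ×ˢ N).card +
        ((F.sigma (fun x => N.filter (fun n => nn s x * n ∉ N))).image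
          (fun p => (p.1, p.2))).card : ℕ) : ℝ) := Nat.cast_le.2 hcard2
    _ ≤ ε / 2 * (F.card * N.card) + ε / 2 * (F.card * N.card) := by
        rw [Nat.cast_add]
        exact add_le_add hcard4 hcard3
    _ = _ := by push_cast; ring

theorem fol_of_locallyFinite {G : Type} [Group G]
    (h : ∀ S : Finset G, Finite (Subgroup.closure (S : Set G))) : Fol G := by
  intro S ε hε
  have hfin : (Subgroup.closure (S : Set G) : Set G).Finite := by
    haveI := h S
    exact Set.toFinite _
  refine ⟨hfin.toFinset, ⟨1, ?_⟩, fun s hs => ?_⟩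
  · rw [Set.Finite.mem_toFinset]
    exact Subgroup.one_mem _
  · have h1 : (hfin.toFinset.filter (fun t => s * t ∉ hfin.toFinset)) = ∅ := by
      ext t
      simp only [Finset.mem_filter, Set.Finite.mem_toFinset, Finset.notMem_empty, iff_false,
        not_and, not_not]
      intro ht
      exact Subgroup.mul_mem _ (Subgroup.subset_closure hs) ht
    rw [h1, Finset.card_empty, Nat.cast_zero]
    positivity

end HJI.Fol
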