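import Mathlib
import Pool.Agent.Helper529.HJ.FolA

open Classical

namespace HJI.Fol

theorem fol_comm_aux {G : Type} [CommGroup G] : Fol G := by
  intro S ε hε
  by_contra hcon
  push Not at hcon
  let T : ℕ → Finset G := fun N =>
    (Fintype.piFinset (fun _ : S => Finset.range (N + 1))).image
      (fun n : S → ℕ => ∏ s : S, (s : G) ^ (n s))
  have hT1 : ∀ N, (1 : G) ∈ T N := by
    intro N
    refine Finset.mem_image.2 ⟨fun _ => 0, ?_, ?_⟩
    · rw [Fintype.mem_piFinset]; intro s; simp
    · simp
  have hne : ∀ N, (T N).Nonempty := fun N => ⟨1, hT1 N⟩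
  have hmono : ∀ N, T N ⊆ T (N + 1) := by
    intro N x hx
    obtain ⟨n, hn, rfl⟩ := Finset.mem_image.1 hx
    refine Finset.mem_image.2 ⟨n, ?_, rfl⟩
    rw [Fintype.mem_piFinset] at hn ⊢
    intro s
    have := Finset.mem_range.1 (hn s)
    exact Finset.mem_range.2 (by omega)
  have hmul : ∀ N, ∀ s ∈ S, ∀ x ∈ T N, s * x ∈ T (N + 1) := by
    intro N s hs x hx
    obtain ⟨n, hn, rfl⟩ := Finset.mem_image.1 hx
    refine Finset.mem_image.2 ⟨fun t => n t + (if t = ⟨s, hs⟩ then 1 else 0), ?_, ?_⟩
    · rw [Fintype.mem_piFinset] at hn ⊢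
      intro t
      have := Finset.mem_range.1 (hn t)
      refine Finset.mem_range.2 ?_
      split_ifs <;> omega
    · simp only [pow_add, Finset.prod_mul_distrib]
      rw [mul_comm]
      congr 1
      rw [Finset.prod_eq_single (⟨s, hs⟩ : S)]
      · simp
      · intro b _ hb
        simp [hb]
      · intro h; exact absurd (Finset.mem_univ _) h
  have hcard : ∀ N, (T N).card ≤ (N + 1) ^ S.card := by
    intro N
    refine Finset.card_image_le.trans ?_
    rw [Fintype.card_piFinset]
    simp
  have hstep : ∀ N, (1 + ε) * ((T N).card : ℝ) ≤ ((T (N + 1)).card : ℝ) := by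
    intro N
    obtain ⟨s, hs, hlt⟩ := hcon (T N) (hne N)
    set F := (T N).filter (fun t => s * t ∉ T N) with hF
    have hsub : F.image (fun t => s * t) ⊆ T (N + 1) \ T N := by
      intro y hy
      obtain ⟨t, ht, rfl⟩ := Finset.mem_image.1 hy
      rw [hF, Finset.mem_filter] at ht
      exact Finset.mem_sdiff.2 ⟨hmul N s hs t ht.1, ht.2⟩
    have h1 : F.card ≤ (T (N + 1) \ T N).card := by
      rw [← Finset.card_image_of_injective F (mul_right_injective s)]
      exact Finset.card_le_card hsub
    have h2 : (T (N + 1) \ T N).card + (T N).card = (T (N + 1)).card :=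
      Finset.card_sdiff_add_card_eq_card (hmono N)
    have h3 : (F.card : ℝ) + ((T N).card : ℝ) ≤ ((T (N + 1)).card : ℝ) := by
      exact_mod_cast (by omega : F.card + (T N).card ≤ (T (N + 1)).card)
    nlinarith
  have hpow : ∀ N, (1 + ε) ^ N ≤ ((T N).card : ℝ) := by
    intro N
    induction N with
    | zero =>
      have : 1 ≤ (T 0).card := Finset.card_pos.2 (hne 0)
      simpa using this
    | succ N ih =>
      rw [pow_succ]
      calc (1 + ε) ^ N * (1 + ε) = (1 + ε) * (1 + ε) ^ N := by ring
        _ ≤ (1 + ε) * ((T N).card : ℝ) := by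
          exact mul_le_mul_of_nonneg_left ih (by linarith)
        _ ≤ _ := hstep N
  have hlim := tendsto_pow_const_div_const_pow_of_one_lt S.card (show (1 : ℝ) < 1 + ε by linarith)
  have hlim2 := hlim.comp (Filter.tendsto_add_atTop_nat 1)
  have hpos : (0 : ℝ) < 1 / (1 + ε) := by positivity
  have hev := (hlim2.eventually (gt_mem_nhds hpos)).exists
  obtain ⟨N, hN⟩ := hev
  simp only [Function.comp] at hN
  rw [div_lt_div_iff₀ (by positivity) (by positivity)] at hN
  have h4 : ((N + 1 : ℕ) : ℝ) ^ S.card ≥ (1 + ε) ^ N := by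
    refine (hpow N).trans ?_
    exact_mod_cast hcard N
  have h5 : (1 + ε) ^ (N + 1) = (1 + ε) ^ N * (1 + ε) := pow_succ _ _
  have h6 : (0 : ℝ) < 1 + ε := by linarith
  nlinarith [mul_le_mul_of_nonneg_right h4 h6.le]

/-- Every abelian group satisfies the Folner condition. -/
theorem fol_comm {G : Type} [Group G] (hc : ∀ a b : G, a * b = b * a) : Fol G := by
  letI : CommGroup G := { (inferInstance : Group G) with mul_comm := hc }
  exact fol_comm_aux (G := G)

theorem len_bound {G : Type} [Group G] (E : Finset G) (g : G)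
    (hg : g ∈ Subgroup.closure (E : Set G)) :
    ∃ c : ℝ, 0 ≤ c ∧ ∀ (T : Finset G) (δ : ℝ), 0 ≤ δ →
      (∀ s ∈ E, (((T.filter (fun t => s * t ∉ T)).card : ℕ) : ℝ) ≤ δ) →
      (((T.filter (fun t => g * t ∉ T)).card : ℕ) : ℝ) ≤ c * δ := by
  induction hg using Subgroup.closure_induction with
  | mem x hx =>
    refine ⟨1, zero_le_one, fun T δ _ h => ?_⟩
    rw [one_mul]
    exact h x hx
  | one =>
    refine ⟨0, le_refl _, fun T δ _ h => ?_⟩
    have : T.filter (fun t => (1 : G) * t ∉ T) = ∅ := by
      apply Finset.filter_false_of_mem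
      intro t ht
      simpa using ht
    rw [this]; simp
  | mul x y _ _ ihx ihy =>
    obtain ⟨a, ha, hx⟩ := ihx
    obtain ⟨b, hb, hy⟩ := ihy
    refine ⟨a + b, by linarith, fun T δ hδ h => ?_⟩
    have h1 := hx T δ hδ h
    have h2 := hy T δ hδ h
    have hsub : T.filter (fun t => x * y * t ∉ T) ⊆
        T.filter (fun t => y * t ∉ T) ∪
          (T.filter (fun t => x * t ∉ T)).image (fun u => y⁻¹ * u) := by
      intro t ht
      rw [Finset.mem_filter] at ht
      by_cases hyt : y * t ∈ T
      · refine Finset.mem_union_right _ (Finset.mem_image.2 ⟨y * t, ?_, by group⟩)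
        rw [Finset.mem_filter]
        refine ⟨hyt, ?_⟩
        rw [← mul_assoc]; exact ht.2
      · exact Finset.mem_union_left _ (Finset.mem_filter.2 ⟨ht.1, hyt⟩)
    have h3 := (Finset.card_le_card hsub).trans (Finset.card_union_le _ _)
    have h4 : ((T.filter (fun t => x * t ∉ T)).image (fun u => y⁻¹ * u)).card ≤
      (T.filter (fun t => x * t ∉ T)).card := Finset.card_image_le
    have h5 : ((T.filter (fun t => x * y * t ∉ T)).card : ℝ) ≤
        ((T.filter (fun t => y * t ∉ T)).card : ℝ) + ((T.filter (fun t => x * t ∉ T)).card : ℝ) := by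
      exact_mod_cast h3.trans (Nat.add_le_add_left h4 _)
    linarith
  | inv x _ ihx =>
    obtain ⟨a, ha, hx⟩ := ihx
    refine ⟨a, ha, fun T δ hδ h => ?_⟩
    have h1 := hx T δ hδ h
    refine le_trans ?_ h1
    have key : (T.filter (fun t => x⁻¹ * t ∉ T)).card = (T.filter (fun t => x * t ∉ T)).card := by
      have e1 : (T.filter (fun t => x⁻¹ * t ∉ T)).card + (T.filter (fun t => x⁻¹ * t ∈ T)).card
          = T.card := by
        rw [add_comm]
        exact Finset.card_filter_add_card_filter_not (fun t => x⁻¹ * t ∈ T)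
      have e2 : (T.filter (fun t => x * t ∉ T)).card + (T.filter (fun t => x * t ∈ T)).card
          = T.card := by
        rw [add_comm]
        exact Finset.card_filter_add_card_filter_not (fun t => x * t ∈ T)
      have e3 : (T.filter (fun t => x⁻¹ * t ∈ T)).card = (T.filter (fun t => x * t ∈ T)).card := by
        refine Finset.card_bij (fun t _ => x⁻¹ * t) ?_ ?_ ?_
        · intro t ht
          rw [Finset.mem_filter] at ht ⊢
          exact ⟨ht.2, by simpa using ht.1⟩
        · intro t _ t' _ h
          simpa using h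
        · intro u hu
          rw [Finset.mem_filter] at hu
          refine ⟨x * u, Finset.mem_filter.2 ⟨hu.2, by simpa using hu.1⟩, by simp⟩
      omega
    exact_mod_cast key.le

/-- It is enough to check a generating set. -/
theorem fol_of_gen {G : Type} [Group G] (E : Finset G) (hE : Subgroup.closure (E : Set G) = ⊤)
    (h : ∀ ε : ℝ, 0 < ε → ∃ T : Finset G, T.Nonempty ∧
      ∀ s ∈ E, (((T.filter (fun t => s * t ∉ T)).card : ℕ) : ℝ) ≤ ε * (T.card : ℝ)) : Fol G := by
  intro S ε hε
  have hlen : ∀ g : G, ∃ c : ℝ, 0 ≤ c ∧ ∀ (T : Finset G) (δ : ℝ), 0 ≤ δ →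
      (∀ s ∈ E, (((T.filter (fun t => s * t ∉ T)).card : ℕ) : ℝ) ≤ δ) →
      (((T.filter (fun t => g * t ∉ T)).card : ℕ) : ℝ) ≤ c * δ :=
    fun g => len_bound E g (by rw [hE]; trivial)
  choose c hc0 hc using hlen
  set C : ℝ := 1 + ∑ g ∈ S, c g with hC
  have hCpos : 0 < C := by
    have : 0 ≤ ∑ g ∈ S, c g := Finset.sum_nonneg (fun g _ => hc0 g)
    linarith
  obtain ⟨T, hT, hTE⟩ := h (ε / C) (by positivity)
  refine ⟨T, hT, fun s hs => ?_⟩
  have h1 := hc s T (ε / C * (T.card : ℝ)) (by positivity) hTE
  refine h1.trans ?_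
  have h2 : c s ≤ C := by
    have := Finset.single_le_sum (f := c) (fun g _ => hc0 g) hs
    linarith
  calc c s * (ε / C * (T.card : ℝ)) ≤ C * (ε / C * (T.card : ℝ)) :=
        mul_le_mul_of_nonneg_right h2 (by positivity)
    _ = ε * (T.card : ℝ) := by field_simp

theorem card_translate_le {G : Type} [Group G] (T : Finset G) (g : G) (A : Set G) :
    (T.filter (fun t => t ∈ (fun x => g * x) '' A)).card ≤
      (T.filter (fun t => t ∈ A)).card + (T.filter (fun t => g⁻¹ * t ∉ T)).card := by
  have hsub : T.filter (fun t => t ∈ (fun x => g * x) '' A) ⊆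
      (T.filter (fun t => t ∈ A)).image (fun t => g * t) ∪ T.filter (fun t => g⁻¹ * t ∉ T) := by
    intro t ht
    rw [Finset.mem_filter] at ht
    obtain ⟨htT, a, ha, rfl⟩ := ht
    by_cases h : a ∈ T
    · exact Finset.mem_union_left _ (Finset.mem_image.2 ⟨a, Finset.mem_filter.2 ⟨h, ha⟩, rfl⟩)
    · refine Finset.mem_union_right _ (Finset.mem_filter.2 ⟨htT, ?_⟩)
      simpa using h
  exact (Finset.card_le_card hsub).trans
    ((Finset.card_union_le _ _).trans (Nat.add_le_add_right Finset.card_image_le _))

theorem card_le_translate {G : Type} [Group G] (T : Finset G) (g : G) (A : Set G) :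
    (T.filter (fun t => t ∈ A)).card ≤
      (T.filter (fun t => t ∈ (fun x => g * x) '' A)).card +
        (T.filter (fun t => g * t ∉ T)).card := by
  have h := card_translate_le T g⁻¹ ((fun x => g * x) '' A)
  have e : (fun x => g⁻¹ * x) '' ((fun x => g * x) '' A) = A := by
    ext x
    constructor
    · rintro ⟨_, ⟨a, ha, rfl⟩, rfl⟩
      simpa using ha
    · intro hx
      exact ⟨g * x, ⟨x, hx, rfl⟩, by simp⟩
  rw [e] at h
  simpa using h

/-- Folner implies an invariant finitely additive probability measure. -/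
theorem mean_of_fol {G : Type} [Group G] (h : Fol G) :
    ∃ μ : Set G → ℝ, (∀ A, 0 ≤ μ A) ∧ μ Set.univ = 1 ∧
      (∀ A B : Set G, Disjoint A B → μ (A ∪ B) = μ A + μ B) ∧
      ∀ (g : G) (A : Set G), μ ((fun x => g * x) '' A) = μ A := by
  have hch : ∀ i : Finset G × ℕ, ∃ T : Finset G, T.Nonempty ∧
      ∀ s ∈ i.1, (((T.filter (fun t => s * t ∉ T)).card : ℕ) : ℝ) ≤
        (1 / ((i.2 : ℝ) + 1)) * (T.card : ℝ) := fun i => h i.1 _ (by positivity)
  choose T hTne hT using hch
  let U : Ultrafilter (Finset G × ℕ) := Ultrafilter.of Filter.atTop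
  have hU : (U : Filter (Finset G × ℕ)) ≤ Filter.atTop := Ultrafilter.of_le _
  let f : Set G → (Finset G × ℕ) → ℝ := fun A i =>
    (((T i).filter (fun t => t ∈ A)).card : ℝ) / ((T i).card : ℝ)
  have hcpos : ∀ i, (0 : ℝ) < ((T i).card : ℝ) := fun i => by
    exact_mod_cast Finset.card_pos.2 (hTne i)
  have hf01 : ∀ A i, f A i ∈ Set.Icc (0 : ℝ) 1 := by
    intro A i
    refine ⟨by positivity, ?_⟩
    rw [div_le_one (hcpos i)]
    exact_mod_cast Finset.card_filter_le _ _
  have hlim : ∀ A, ∃ x ∈ Set.Icc (0 : ℝ) 1, Filter.Tendsto (f A) U (nhds x) := by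
    intro A
    have := isCompact_Icc.ultrafilter_le_nhds (U.map (f A)) (by
      rw [Filter.le_principal_iff]
      exact Filter.mem_map.2 (Filter.univ_mem' (fun i => hf01 A i)))
    exact this
  choose μ hμ01 hμ using hlim
  refine ⟨μ, fun A => (hμ01 A).1, ?_, ?_, ?_⟩
  · have h1 : f Set.univ = fun _ => 1 := by
      funext i
      simp only [f, Set.mem_univ, Finset.filter_true]
      exact div_self (hcpos i).ne'
    have := hμ Set.univ
    rw [h1] at this
    exact tendsto_nhds_unique this tendsto_const_nhds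
  · intro A B hAB
    have h1 : f (A ∪ B) = fun i => f A i + f B i := by
      funext i
      simp only [f]
      rw [← add_div]
      congr 1
      rw [← Nat.cast_add, ← Finset.card_union_of_disjoint]
      · congr 1
        congr 1
        ext t
        simp only [Finset.mem_filter, Finset.mem_union, Set.mem_union]
        tauto
      · rw [Finset.disjoint_left]
        intro t ht ht'
        rw [Finset.mem_filter] at ht ht'
        exact Set.disjoint_left.1 hAB ht.2 ht'.2
    have h2 := hμ (A ∪ B)
    rw [h1] at h2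
    exact tendsto_nhds_unique h2 ((hμ A).add (hμ B))
  · intro g A
    have hz : Filter.Tendsto (fun i => f ((fun x => g * x) '' A) i - f A i) U (nhds 0) := by
      have hb : ∀ᶠ i in Filter.atTop, |f ((fun x => g * x) '' A) i - f A i| ≤
          1 / ((i.2 : ℝ) + 1) := by
        filter_upwards [Filter.eventually_ge_atTop (({g, g⁻¹} : Finset G), 0)] with i hi
        have hi1 : ({g, g⁻¹} : Finset G) ⊆ i.1 := hi.1
        have a1 := hT i g (hi1 (by simp))
        have a2 := hT i g⁻¹ (hi1 (by simp))
        have b1 : ((((T i).filter (fun t => t ∈ (fun x => g * x) '' A)).card : ℕ) : ℝ) ≤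
            (((T i).filter (fun t => t ∈ A)).card : ℝ) +
              (((T i).filter (fun t => g⁻¹ * t ∉ T i)).card : ℝ) := by
          exact_mod_cast card_translate_le (T i) g A
        have b2 : ((((T i).filter (fun t => t ∈ A)).card : ℕ) : ℝ) ≤
            (((T i).filter (fun t => t ∈ (fun x => g * x) '' A)).card : ℝ) +
              (((T i).filter (fun t => g * t ∉ T i)).card : ℝ) := by
          exact_mod_cast card_le_translate (T i) g A
        simp only [f]
        rw [← sub_div, abs_div, abs_of_pos (hcpos i), div_le_iff₀ (hcpos i), abs_le]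
        constructor <;> linarith
      have hz1 : Filter.Tendsto (fun i : Finset G × ℕ => 1 / ((i.2 : ℝ) + 1)) Filter.atTop
          (nhds 0) := by
        have : Filter.Tendsto (fun i : Finset G × ℕ => i.2) Filter.atTop Filter.atTop :=
          Filter.tendsto_atTop_atTop.2 (fun b => ⟨(∅, b), fun a ha => ha.2⟩)
        exact tendsto_one_div_add_atTop_nhds_zero_nat.comp this
      have hz2 : Filter.Tendsto (fun i => f ((fun x => g * x) '' A) i - f A i) Filter.atTop
          (nhds 0) := by
        rw [tendsto_zero_iff_abs_tendsto_zero]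
        exact tendsto_of_tendsto_of_tendsto_of_le_of_le' tendsto_const_nhds hz1
          (Filter.Eventually.of_forall (fun i => abs_nonneg _)) hb
      exact hz2.mono_left hU
    have h3 := (hμ ((fun x => g * x) '' A)).sub (hμ A)
    have := tendsto_nhds_unique h3 hz
    linarith


theorem fol_pi_fin {G : Type} [Group G] (h : Fol G) (n : ℕ) : Fol (Fin n → G) := by
  induction n with
  | zero => exact fol_of_finite
  | succ n ih =>
    let f : (Fin (n + 1) → G) →* (Fin n → G) :=
      { toFun := fun x i => x i.succ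
        map_one' := rfl
        map_mul' := fun _ _ => rfl }
    apply fol_ext f _ ih
    let g : f.ker →* G :=
      { toFun := fun x => x.1 0
        map_one' := rfl
        map_mul' := fun _ _ => rfl }
    apply fol_of_injective g _ h
    intro x y hxy
    apply Subtype.ext
    funext i
    refine Fin.cases ?_ (fun j => ?_) i
    · exact hxy
    · have h1 : f x.1 = 1 := x.2
      have h2 : f y.1 = 1 := y.2
      have h3 : f x.1 j = f y.1 j := by rw [h1, h2]
      exact h3

/-- Powers. -/
theorem fol_pi {G : Type} [Group G] {ι : Type} [Finite ι] (h : Fol G) : Fol (ι → G) := by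
  obtain ⟨n, ⟨e⟩⟩ := Finite.exists_equiv_fin ι
  let f : (ι → G) →* (Fin n → G) :=
    { toFun := fun x i => x (e.symm i)
      map_one' := rfl
      map_mul' := fun _ _ => rfl }
  apply fol_of_injective f _ (fol_pi_fin h n)
  intro x y hxy
  funext i
  have := congrFun hxy (e i)
  simpa [f] using this

end HJI.Fol
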